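import Pool.Agent.Helper56.LD.Goals

/-! Packet LD-CO6 (MP_0152c0_gt): forward matching of the auxiliary condition.  helper31. -/

set_option autoImplicit false

namespace Pool.Agent.Helper31.LD

open Pool.Agent.Helper56.LD

lemma eqv_refl {L : Type} (b : ℕ → L → Prop) (e : ℕ → L) : Eqv b e e :=
  fun _ => ⟨Iff.rfl, fun _ => rfl⟩

lemma not_main_aux {l : Lab} (h : IsAux l) (h' : IsMain l) : False := by
  obtain ⟨q, rfl⟩ := h
  obtain ⟨t, ht⟩ := h'
  exact absurd ht (by simp)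

/-- the modified ray -/
def mod (κ : Bool) (t y : Fin 3) (m : ℕ) (e : ℕ → Lab) (j : ℕ) : Lab :=
  if j + 1 < m then Sum.inr (κ, t) else if j < m then Sum.inr (κ, y) else e j

theorem auxFwd : StmtAuxFwd := by
  intro u hu n κ τ τ' hn hττ e he hA
  rcases hA with hA | hA | hA
  · exact ⟨e, he, Or.inl hA, eqv_refl _ _, fun _ _ => rfl⟩
  · exact ⟨e, he, Or.inr (Or.inl hA), eqv_refl _ _, fun _ _ => rfl⟩
  obtain ⟨ν, k, hν, hk, h1 | ⟨h1, h2, h3, h4⟩⟩ := hA
  · exact ⟨e, he, Or.inr (Or.inr ⟨ν, k, hν, hk, Or.inl (by omega)⟩), eqv_refl _ _, fun _ _ => rfl⟩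
  have hp : 2 ^ (k + 1) = 2 * 2 ^ k := by ring
  set P := 2 ^ k with hP
  obtain ⟨m, hm⟩ : ∃ m, m = 2 ^ (k + 1) - n := ⟨_, rfl⟩
  rw [← hm] at h3 h4
  by_cases hm1 : m = 1
  · refine ⟨e, he, Or.inr (Or.inr ⟨ν, k, hν, hk, Or.inl (by omega)⟩), eqv_refl _ _,
      fun _ _ => rfl⟩
  have hm2 : 2 ≤ m := by omega
  obtain ⟨hB1, hB2⟩ := h4
  have hsub : 2 ^ (k + 1) - (n + 1) = m - 1 := by omega
  rcases hττ with rfl | hττ
  · refine ⟨e, he, Or.inr (Or.inr ⟨ν, k, hν, hk, Or.inr ⟨by omega, by omega, by omega, ?_⟩⟩),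
      eqv_refl _ _, fun _ _ => rfl⟩
    rw [hsub]
    refine ⟨fun j hj => hB1 j (by omega), Or.inr ?_⟩
    exact hB1 (m - 1 - 1) (by omega)
  -- the main case
  obtain ⟨m', rfl⟩ : ∃ m', m = m' + 2 := ⟨m - 2, by omega⟩
  have hBm : m' + 2 - 1 = m' + 1 := rfl
  rw [hBm] at hB2
  obtain ⟨⟨κ'', x⟩, hx⟩ := hν.2 (m' + 2) h3
  have htr := he (m' + 1)
  rw [show m' + 1 + 1 = m' + 2 from rfl, hx] at htr
  have hκ : κ'' = κ := by
    rcases hB2 with h | h
    · rw [h] at htr; exact htr.1.symm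
    · rw [h] at htr; exact htr.1.symm
  subst hκ
  set y : Fin 3 := if x = τ + 2 then τ else τ + 1 with hy
  have hyx : y = x ∨ y = x + 1 := by
    rw [hy]; clear_value y; revert hx; intro _; fin_cases x <;> fin_cases τ <;> decide
  have hyt : τ + 1 = y ∨ τ + 1 = y + 1 := by
    rw [hy]; split_ifs
    · exact Or.inr rfl
    · exact Or.inl rfl
  have hyy : y = τ ∨ y = τ + 1 := by
    rw [hy]; split_ifs
    · exact Or.inl rfl
    · exact Or.inr rfl
  set e' := mod κ'' (τ + 1) y (m' + 2) e with he'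
  have e1 : ∀ j, j < m' + 1 → e' j = Sum.inr (κ'', τ + 1) := by
    intro j hj
    rw [he', mod, if_pos (by omega)]
  have e2 : e' (m' + 1) = Sum.inr (κ'', y) := by
    rw [he', mod, if_neg (by omega), if_pos (by omega)]
  have e3 : ∀ j, m' + 2 ≤ j → e' j = e j := by
    intro j hj
    rw [he', mod, if_neg (by omega), if_neg (by omega)]
  have hES : e' ∈ ES := by
    intro j
    rcases Nat.lt_trichotomy j (m' + 1) with hj | hj | hj
    · rw [e1 j hj]
      by_cases hj2 : j + 1 < m' + 1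
      · rw [e1 _ hj2]
        exact ⟨rfl, Or.inl rfl⟩
      · have : j + 1 = m' + 1 := by omega
        rw [this, e2]
        exact ⟨rfl, hyt⟩
    · subst hj
      rw [e2, e3 _ (by omega), hx]
      exact ⟨rfl, hyx⟩
    · rw [e3 j (by omega), e3 (j + 1) (by omega)]
      exact he j
  have hauxE' : ∀ j, j < m' + 2 → IsAux (e' j) := by
    intro j hj
    by_cases hj2 : j < m' + 1
    · rw [e1 j hj2]; exact ⟨_, rfl⟩
    · have : j = m' + 1 := by omega
      rw [this, e2]; exact ⟨_, rfl⟩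
  have hne1 : ∀ t : Fin 3, t + 1 ≠ t := by decide
  have hne2 : ∀ t : Fin 3, t + 2 ≠ t := by decide
  -- blocked levels
  have hnb : ∀ j, 1 ≤ j → j < m' + 2 → ¬ blk u n (Sum.inr (κ'', τ, u n)) j (e j) := by
    intro j hj1 hj2
    have hjn : ¬ ((n : ℕ∞) ≤ (j : ℕ∞)) := by
      rw [Nat.cast_le]; omega
    by_cases hj3 : j < m' + 1
    · rw [hB1 j (by omega)]
      rintro ⟨-, h | ⟨h, -⟩⟩
      · exact hjn h
      · exact hne2 τ h
    · have hj4 : j = m' + 1 := by omega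
      rw [hj4] at hjn ⊢
      rcases hB2 with h | h
      · rw [h]
        rintro ⟨-, h | ⟨h, -⟩⟩
        · exact hjn h
        · exact hne1 τ h
      · rw [h]
        rintro ⟨-, h | ⟨h, -⟩⟩
        · exact hjn h
        · exact hne2 τ h
  have hnb' : ∀ j, 1 ≤ j → j < m' + 2 → ¬ blk u n (Sum.inr (κ'', τ, u n)) j (e' j) := by
    intro j hj1 hj2
    have hjn : ¬ ((n : ℕ∞) ≤ (j : ℕ∞)) := by
      rw [Nat.cast_le]; omega
    by_cases hj3 : j < m' + 1
    · rw [e1 j hj3]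
      rintro ⟨-, h | ⟨h, -⟩⟩
      · exact hjn h
      · exact hne1 τ h
    · have hj4 : j = m' + 1 := by omega
      rw [hj4] at hjn ⊢
      rw [e2]
      rintro ⟨-, h | ⟨-, h⟩⟩
      · exact hjn h
      · have hg := (hu k n (m' + 1) (by omega) (by omega) (by omega)).1
        exact hg h.symm
  have hbb : ∀ j, 1 ≤ j → (blk u n (Sum.inr (κ'', τ, u n)) j (e j) ↔
      blk u n (Sum.inr (κ'', τ, u n)) j (e' j)) := by
    intro j hj
    by_cases hj2 : j < m' + 2
    · exact ⟨fun h => absurd h (hnb j hj hj2), fun h => absurd h (hnb' j hj hj2)⟩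
    · rw [e3 j (by omega)]
  refine ⟨e', hES, Or.inr (Or.inr ⟨ν, k, ⟨?_, ?_⟩, hk, Or.inr ⟨by omega, by omega, by omega, ?_⟩⟩),
    ?_, ?_⟩
  · rw [e3 ν (by omega)]; exact hν.1
  · intro j hj
    by_cases hj2 : j < m' + 2
    · exact hauxE' j hj2
    · rw [e3 j (by omega)]; exact hν.2 j hj
  · rw [hsub, show m' + 2 - 1 = m' + 1 from rfl]
    have ht : τ + 1 = τ' + 2 := by
      rw [hττ, add_assoc]; rfl
    refine ⟨fun j hj => ?_, Or.inr ?_⟩
    · rw [e1 j (by omega), ht]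
    · rw [show m' + 1 - 1 = m' from rfl, e1 m' (by omega), ht]
  · intro N
    constructor
    · constructor
      · intro h j hj1 hj2 hb
        exact h j hj1 hj2 ((hbb j hj1).mpr hb)
      · intro h j hj1 hj2 hb
        exact h j hj1 hj2 ((hbb j hj1).mp hb)
    · intro h
      unfold UB at h
      push Not at h
      obtain ⟨j, hj1, hj2, hb⟩ := h
      have hj3 : m' + 2 ≤ j := by
        by_contra hlt
        exact hnb j hj1 (by omega) hb
      exact (e3 N (by omega)).symm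
  · intro j hj
    by_cases hj2 : j < m' + 2
    · rcases hj with h | h
      · exact (not_main_aux (hν.2 j (by omega)) h).elim
      · exact (not_main_aux (hauxE' j hj2) h).elim
    · exact (e3 j (by omega)).symm

end Pool.Agent.Helper31.LD
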