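import Pool.Agent.Helper56.LD.Basics
import Pool.Agent.Helper56.LD.Goals

/-! Packet LD-SP1 (MP_0152c0_gt): the space is compact.  helper31. -/

set_option autoImplicit false

namespace Pool.Agent.Helper31.LD

open Pool.Agent.Helper56.LD Set Filter Topology

theorem compactSpace : StmtCompact := by
  intro L Ω _ _ _ _ _ _ lt E hE
  have hbox : IsCompact ((Icc (0 : ℝ) 1) ×ˢ ((pi univ fun _ : ℕ => pi univ fun _ : L =>
      Icc (0 : ℝ) 1) ×ˢ (pi univ fun _ : Ω => Icc (0 : ℝ) 1)) : Set (Amb L Ω)) := by
    refine isCompact_Icc.prod (IsCompact.prod ?_ ?_)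
    · exact isCompact_univ_pi fun j => isCompact_univ_pi fun l => isCompact_Icc
    · exact isCompact_univ_pi fun ω => isCompact_Icc
  refine hbox.of_isClosed_subset ?_ ?_
  · -- closed
    refine isClosed_of_closure_subset fun x hx => ?_
    have h0 : 0 ≤ x.1 := by
      have hc : IsClosed {z : Amb L Ω | 0 ≤ z.1} := isClosed_le continuous_const continuous_fst
      exact closure_minimal (fun z hz => fst_nonneg hz) hc hx
    rcases h0.lt_or_eq with hpos | hzero
    · obtain ⟨N, hN⟩ := exists_pow_lt_of_lt_one hpos (by norm_num : (1/2 : ℝ) < 1)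
      rw [one_div_pow] at hN
      have hU : IsOpen {z : Amb L Ω | 1 / 2 ^ N < z.1} := isOpen_lt continuous_const continuous_fst
      have hx1 : x ∈ closure ({z : Amb L Ω | 1 / 2 ^ N < z.1} ∩ MSet lt E) :=
        hU.inter_closure ⟨hN, hx⟩
      have hcl : IsClosed (⋃ n ∈ Finset.range N,
          {x : Amb L Ω | ∃ e ∈ E, ∃ w ∈ Icc (0 : ℝ) 1, x = pt lt n e w}) := by
        refine Set.Finite.isClosed_biUnion (Finset.finite_toSet _) fun n _ => ?_
        exact (isCompact_level lt hE n).isClosed
      have hsub : {z : Amb L Ω | 1 / 2 ^ N < z.1} ∩ MSet lt E ⊆ ⋃ n ∈ Finset.range N,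
          {x : Amb L Ω | ∃ e ∈ E, ∃ w ∈ Icc (0 : ℝ) 1, x = pt lt n e w} := by
        rintro z ⟨hz1, ⟨ω, r, hr, rfl⟩ | ⟨n, e, he, w, hw, rfl⟩⟩
        · have : (0 : ℝ) < 1 / 2 ^ N := by positivity
          have h1 : (1 : ℝ) / 2 ^ N < 0 := hz1
          linarith
        · refine mem_iUnion₂.mpr ⟨n, ?_, e, he, w, hw, rfl⟩
          rw [Finset.mem_range]
          by_contra hn
          push Not at hn
          have h1 : (1 : ℝ) / 2 ^ N < hgt n w := hz1
          have h2 : hgt n w ≤ 1 / 2 ^ n := hgt_le hw.2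
          have h3 : (1 : ℝ) / 2 ^ n ≤ 1 / 2 ^ N := by
            apply one_div_le_one_div_of_le (by positivity)
            exact pow_le_pow_right₀ (by norm_num) hn
          linarith
      have hx2 := closure_minimal hsub hcl hx1
      obtain ⟨n, -, e, he, w, hw, rfl⟩ := mem_iUnion₂.mp hx2
      exact pt_mem lt n he hw
    · have hlab : ∀ (j : ℕ) (l : L), x.2.1 j l = 0 := by
        intro j l
        have hU : IsOpen {z : Amb L Ω | z.1 < 1 / 2 ^ (j + 1)} :=
          isOpen_lt continuous_fst continuous_const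
        have hxU : x ∈ {z : Amb L Ω | z.1 < 1 / 2 ^ (j + 1)} := by
          show x.1 < 1 / 2 ^ (j + 1)
          rw [← hzero]; positivity
        have hx1 : x ∈ closure ({z : Amb L Ω | z.1 < 1 / 2 ^ (j + 1)} ∩ MSet lt E) :=
          hU.inter_closure ⟨hxU, hx⟩
        have hcl : IsClosed {z : Amb L Ω | z.2.1 j l = 0} := by
          refine isClosed_eq ?_ continuous_const
          exact (continuous_apply l).comp ((continuous_apply j).comp
            (continuous_fst.comp continuous_snd))
        refine closure_minimal ?_ hcl hx1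
        rintro z ⟨hz1, ⟨ω, r, hr, rfl⟩ | ⟨n, e, he, w, hw, rfl⟩⟩
        · rfl
        · have hjn : j < n := by
            by_contra hn
            push Not at hn
            have h1 : hgt n w < 1 / 2 ^ (j + 1) := hz1
            have h2 : 1 / 2 ^ (n + 1) ≤ hgt n w := hgt_ge hw.1
            have h3 : (1 : ℝ) / 2 ^ (j + 1) ≤ 1 / 2 ^ (n + 1) := by
              apply one_div_le_one_div_of_le (by positivity)
              exact pow_le_pow_right₀ (by norm_num) (by omega)
            linarith
          show (pt lt n e w).2.1 j l = 0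
          rw [pt_wt, wt_lt hjn, ite_self]
      have hstarC : IsCompact (⋃ ω : Ω, (fun r : ℝ => (fun ω' : Ω => if ω' = ω then r else 0)) ''
          Icc (0 : ℝ) 1) := by
        refine isCompact_iUnion fun ω => isCompact_Icc.image ?_
        refine continuous_pi fun ω' => ?_
        by_cases h : ω' = ω
        · simp only [h, if_true]; exact continuous_id
        · simp only [h, if_false]; exact continuous_const
      have hcl : IsClosed {z : Amb L Ω | z.2.2 ∈ ⋃ ω : Ω,
          (fun r : ℝ => (fun ω' : Ω => if ω' = ω then r else 0)) '' Icc (0 : ℝ) 1} :=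
        hstarC.isClosed.preimage (continuous_snd.comp continuous_snd)
      have hx2 : x ∈ {z : Amb L Ω | z.2.2 ∈ ⋃ ω : Ω,
          (fun r : ℝ => (fun ω' : Ω => if ω' = ω then r else 0)) '' Icc (0 : ℝ) 1} := by
        refine closure_minimal ?_ hcl hx
        rintro z (⟨ω, r, hr, rfl⟩ | ⟨n, e, he, w, hw, rfl⟩)
        · exact mem_iUnion.mpr ⟨ω, r, hr, rfl⟩
        · refine mem_iUnion.mpr ⟨lt n (e n), ?_⟩
          by_cases hn : 1 ≤ n
          · refine ⟨tent w, tent_mem hw, ?_⟩
            funext ω
            rw [pt_star]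
            by_cases h : ω = lt n (e n)
            · subst h; simp [hn]
            · simp [hn, h, Ne.symm h]
          · refine ⟨0, ⟨le_rfl, zero_le_one⟩, ?_⟩
            funext ω
            rw [pt_star]
            simp [hn]
      obtain ⟨ω, r, hr, hxr⟩ := mem_iUnion.mp hx2
      refine Or.inl ⟨ω, r, hr, amb_ext hzero.symm (fun j l => ?_) (fun ω' => ?_)⟩
      · rw [hlab j l]; rfl
      · rw [← hxr]; rfl
  · -- bounded
    rintro x (⟨ω, r, hr, rfl⟩ | ⟨n, e, he, w, hw, rfl⟩)
    · refine ⟨⟨le_rfl, zero_le_one⟩, ?_, ?_⟩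
      · intro j _ l _; exact ⟨le_rfl, zero_le_one⟩
      · intro ω' _
        show (if ω' = ω then r else 0) ∈ Icc (0 : ℝ) 1
        split_ifs
        · exact hr
        · exact ⟨le_rfl, zero_le_one⟩
    · refine ⟨⟨(hgt_pos hw.1).le, hgt_le_one hw.2⟩, ?_, ?_⟩
      · intro j _ l _
        show (if e j = l then wt n w j else 0) ∈ Icc (0 : ℝ) 1
        split_ifs
        · exact ⟨wt_nonneg hw.1, wt_le_one hw.2⟩
        · exact ⟨le_rfl, zero_le_one⟩
      · intro ω' _
        show (if 1 ≤ n ∧ lt n (e n) = ω' then tent w else 0) ∈ Icc (0 : ℝ) 1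
        split_ifs
        · exact tent_mem hw
        · exact ⟨le_rfl, zero_le_one⟩

end Pool.Agent.Helper31.LD
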